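import Pool.Agent.J6H51.PermQ.Kron

/-!
# MP_5909b9_co: the permanental Q-polynomial is not a complete graph invariant

Two non-isomorphic graphs on 8 vertices with 14 edges with the same permanental polynomials
`P` and `Q`.
-/

namespace Pool.Agent.Results.MP_5909b9_co.PermanentalQNotComplete

open MvPolynomial Pool.Agent.J6H51.PermQ

/-- The polynomial ring `ℚ[x, λ, μ]`, with `x = X 0`, `λ = X 1`, `μ = X 2`. -/
abbrev Poly := MvPolynomial (Fin 3) ℚ

open Classical in
/-- The adjacency matrix of `G`, with entries in `ℚ[x, λ, μ]`. -/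
noncomputable def A {n : ℕ} (G : SimpleGraph (Fin n)) : Matrix (Fin n) (Fin n) Poly :=
  G.adjMatrix Poly

/-- The all-ones matrix. -/
noncomputable def J (n : ℕ) : Matrix (Fin n) (Fin n) Poly := Matrix.of fun _ _ => 1

/-- `P(G; x, λ, μ) = per (x I + λ A + μ (J - I - A))`. -/
noncomputable def P {n : ℕ} (G : SimpleGraph (Fin n)) : Poly :=
  ((X 0 : Poly) • (1 : Matrix (Fin n) (Fin n) Poly) + (X 1 : Poly) • A G
    + (X 2 : Poly) • (J n - 1 - A G)).permanent

/-- The `ℚ`-linear operator `ω` on `ℚ[x, λ, μ]` with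
`ω (x ^ a * λ ^ b * μ ^ r) = x ^ a * λ ^ b * μ ^ r / r!`. -/
noncomputable def omega : Poly →ₗ[ℚ] Poly :=
  (basisMonomials (Fin 3) ℚ).constr ℚ fun m => monomial m (1 / ((m 2).factorial : ℚ))

/-- `Q(G; x, λ, μ) = ω (per (x I + λ A + μ J))`. -/
noncomputable def Q {n : ℕ} (G : SimpleGraph (Fin n)) : Poly :=
  omega ((X 0 : Poly) • (1 : Matrix (Fin n) (Fin n) Poly) + (X 1 : Poly) • A G
    + (X 2 : Poly) • J n).permanent

/-! ### Permanents and exponent keys -/

/-- exponent of an entry -/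
def ex {n : ℕ} (G : SimpleGraph (Fin n)) [DecidableRel G.Adj] (i j : Fin n) : ℕ :=
  if i = j then 9 else if G.Adj i j then 1 else 0

theorem per_eq_sum {R : Type*} [CommSemiring R] (G : SimpleGraph (Fin 8)) [DecidableRel G.Adj]
    (x l m : R) :
    (Matrix.of fun i j : Fin 8 => if i = j then x else if G.Adj i j then l else m).permanent
      = ∑ σ : Equiv.Perm (Fin 8), (fun k : ℕ => x ^ (k / 9) * l ^ (k % 9) * m ^ (8 - k / 9 - k % 9))
          (∑ i, ex G (σ i) i) := by
  unfold Matrix.permanent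
  refine Finset.sum_congr rfl fun σ _ => ?_
  simp only [Matrix.of_apply]
  have h1 : ∀ i, (if σ i = i then x else if G.Adj (σ i) i then l else m)
      = x ^ (if σ i = i then 1 else 0) *
        (l ^ (if (σ i ≠ i ∧ G.Adj (σ i) i) then 1 else 0) *
          m ^ (if (σ i ≠ i ∧ ¬ G.Adj (σ i) i) then 1 else 0)) := by
    intro i
    by_cases a : σ i = i
    · simp [a]
    · by_cases b : G.Adj (σ i) i <;> simp [a, b]
  rw [Finset.prod_congr rfl (fun i _ => h1 i), Finset.prod_mul_distrib, Finset.prod_mul_distrib,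
    Finset.prod_pow_eq_pow_sum, Finset.prod_pow_eq_pow_sum, Finset.prod_pow_eq_pow_sum]
  have h2 : ∑ i, ex G (σ i) i = 9 * (∑ i, if σ i = i then 1 else 0)
      + ∑ i, (if (σ i ≠ i ∧ G.Adj (σ i) i) then 1 else 0) := by
    rw [Finset.mul_sum, ← Finset.sum_add_distrib]
    refine Finset.sum_congr rfl fun i _ => ?_
    unfold ex
    by_cases a : σ i = i
    · simp [a]
    · by_cases b : G.Adj (σ i) i <;> simp [a, b]
  have h3 : (∑ i, if σ i = i then 1 else 0)
      + (∑ i, (if (σ i ≠ i ∧ G.Adj (σ i) i) then 1 else 0))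
      + (∑ i, (if (σ i ≠ i ∧ ¬ G.Adj (σ i) i) then 1 else 0)) = 8 := by
    rw [← Finset.sum_add_distrib, ← Finset.sum_add_distrib]
    rw [Finset.sum_congr rfl (g := fun _ => 1)]
    · simp
    · intro i _
      by_cases a : σ i = i
      · simp [a]
      · by_cases b : G.Adj (σ i) i <;> simp [a, b]
  rw [h2]
  generalize (∑ i, if σ i = i then 1 else 0) = a at *
  generalize (∑ i, (if (σ i ≠ i ∧ G.Adj (σ i) i) then 1 else 0)) = b at *
  generalize (∑ i, (if (σ i ≠ i ∧ ¬ G.Adj (σ i) i) then 1 else 0)) = c at *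
  have e1 : (9 * a + b) / 9 = a := by omega
  have e2 : (9 * a + b) % 9 = b := by omega
  have e3 : 8 - a - b = c := by omega
  simp only [e1, e2, e3]
  ring

theorem ex_sum_lt (G : SimpleGraph (Fin 8)) [DecidableRel G.Adj] (σ : Equiv.Perm (Fin 8)) :
    ∑ i, ex G (σ i) i < 81 := by
  have : ∑ i, ex G (σ i) i ≤ ∑ _i : Fin 8, 9 := by
    refine Finset.sum_le_sum fun i _ => ?_
    unfold ex
    split_ifs <;> omega
  simp at this
  omega

theorem kron_perm (G : SimpleGraph (Fin 8)) [DecidableRel G.Adj] (B : ℕ) :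
    ∑ σ : Equiv.Perm (Fin 8), B ^ (∑ i, ex G (σ i) i)
      = (Matrix.of fun i j : Fin 8 => B ^ ex G i j).permanent := by
  unfold Matrix.permanent
  refine Finset.sum_congr rfl fun σ _ => ?_
  simp only [Matrix.of_apply]
  rw [Finset.prod_pow_eq_pow_sum]

theorem per_eq_of_kron {R : Type*} [CommSemiring R] (G H : SimpleGraph (Fin 8))
    [DecidableRel G.Adj] [DecidableRel H.Adj]
    (h : (Matrix.of fun i j : Fin 8 => 65536 ^ ex G i j).permanent
      = (Matrix.of fun i j : Fin 8 => 65536 ^ ex H i j).permanent) (x l m : R) :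
    (Matrix.of fun i j : Fin 8 => if i = j then x else if G.Adj i j then l else m).permanent
      = (Matrix.of fun i j : Fin 8 => if i = j then x else if H.Adj i j then l else m).permanent := by
  rw [per_eq_sum, per_eq_sum]
  refine sum_eq_of_kron 65536 81 _ _ ?_ ?_ (ex_sum_lt G) (ex_sum_lt H) ?_
    (fun k : ℕ => x ^ (k / 9) * l ^ (k % 9) * m ^ (8 - k / 9 - k % 9))
  · rw [Fintype.card_perm, Fintype.card_fin]; decide
  · rw [Fintype.card_perm, Fintype.card_fin]; decide
  · rw [kron_perm, kron_perm, h]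

/-! ### The two graphs -/

/-- exponent table of the first graph -/
def tabG : List (List ℕ) :=
  [[9,0,1,0,0,0,1,0],[0,9,1,0,0,1,0,0],[1,1,9,1,0,1,0,1],[0,0,1,9,1,1,1,1],
   [0,0,0,1,9,1,1,1],[0,1,1,1,1,9,0,0],[1,0,0,1,1,0,9,0],[0,0,1,1,1,0,0,9]]

/-- exponent table of the second graph -/
def tabH : List (List ℕ) :=
  [[9,0,1,1,0,0,0,0],[0,9,0,0,0,1,1,0],[1,0,9,1,1,1,1,0],[1,0,1,9,1,0,1,1],
   [0,0,1,1,9,1,0,1],[0,1,1,0,1,9,0,1],[0,1,1,1,0,0,9,0],[0,0,0,1,1,1,0,9]]

/-- the entry of a table -/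
def tabEntry (t : List (List ℕ)) (i j : ℕ) : ℕ := (t.getD j []).getD i 0

/-- graph of a table. -/
def graphOf (t : List (List ℕ)) : SimpleGraph (Fin 8) where
  Adj i j := i ≠ j ∧ tabEntry t i j = 1 ∧ tabEntry t j i = 1
  symm := ⟨fun _ _ h => ⟨h.1.symm, h.2.2, h.2.1⟩⟩
  loopless := ⟨fun _ h => h.1 rfl⟩

instance (t : List (List ℕ)) : DecidableRel (graphOf t).Adj := fun i j =>
  inferInstanceAs (Decidable (i ≠ j ∧ tabEntry t i j = 1 ∧ tabEntry t j i = 1))

/-- columns -/
def colsOf (t : List (List ℕ)) : List (ℕ → ℕ) := t.map (fun l r => 65536 ^ (l.getD r 0))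

theorem kron_table (t : List (List ℕ)) (ht : t.length = 8)
    (h : ∀ i j : Fin 8, ex (graphOf t) i j = tabEntry t i j) :
    (Matrix.of fun i j : Fin 8 => 65536 ^ ex (graphOf t) i j).permanent
      = go (colsOf t) [0, 1, 2, 3, 4, 5, 6, 7] := by
  rw [go_eq 8 (colsOf t) [0, 1, 2, 3, 4, 5, 6, 7] (by simp [colsOf, ht]) rfl]
  congr 1
  ext i j
  have e0 : (colsOf t)[(j : ℕ)]'(by simp [colsOf, ht]) =
      fun r => 65536 ^ ((t[(j : ℕ)]'(by rw [ht]; exact j.2)).getD r 0) := by
    simp [colsOf]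
  simp only [Matrix.of_apply]
  rw [e0, h]
  unfold tabEntry
  have e1 : t.getD (j : ℕ) [] = t[(j : ℕ)]'(by rw [ht]; exact j.2) := by
    simp [List.getD, ht]
  rw [e1]
  have e2 : ∀ i : Fin 8, ([0, 1, 2, 3, 4, 5, 6, 7] : List ℕ)[(i : ℕ)]'i.2 = i.1 := by
    decide
  rw [e2]

theorem kron_eq : go (colsOf tabG) [0, 1, 2, 3, 4, 5, 6, 7]
    = go (colsOf tabH) [0, 1, 2, 3, 4, 5, 6, 7] := by
  decide +kernel

theorem per_eq {R : Type*} [CommSemiring R] (x l m : R) :
    (Matrix.of fun i j : Fin 8 =>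
      if i = j then x else if (graphOf tabG).Adj i j then l else m).permanent
      = (Matrix.of fun i j : Fin 8 =>
        if i = j then x else if (graphOf tabH).Adj i j then l else m).permanent := by
  refine per_eq_of_kron _ _ ?_ x l m
  rw [kron_table tabG rfl (by decide +kernel), kron_table tabH rfl (by decide +kernel), kron_eq]

theorem P_eq_per (G : SimpleGraph (Fin 8)) [DecidableRel G.Adj] :
    P G = (Matrix.of fun i j : Fin 8 =>
      if i = j then (X 0 : Poly) else if G.Adj i j then X 1 else X 2).permanent := by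
  unfold P
  refine congrArg Matrix.permanent ?_
  ext1 i j
  simp only [A, J, Matrix.add_apply, Matrix.smul_apply, Matrix.sub_apply, Matrix.of_apply,
    SimpleGraph.adjMatrix_apply, Matrix.one_apply, smul_eq_mul]
  by_cases a : i = j
  · subst a; simp
  · by_cases b : G.Adj i j <;> simp [a, b]

theorem Q_eq_per (G : SimpleGraph (Fin 8)) [DecidableRel G.Adj] :
    Q G = omega (Matrix.of fun i j : Fin 8 =>
      if i = j then (X 0 + X 2 : Poly) else if G.Adj i j then X 1 + X 2 else X 2).permanent := by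
  unfold Q
  refine congrArg omega (congrArg Matrix.permanent ?_)
  ext1 i j
  simp only [A, J, Matrix.add_apply, Matrix.smul_apply, Matrix.of_apply,
    SimpleGraph.adjMatrix_apply, Matrix.one_apply, smul_eq_mul]
  by_cases a : i = j
  · subst a; simp
  · by_cases b : G.Adj i j <;> simp [a, b]

/-! ### Non-isomorphism -/

theorem degree_iso {G H : SimpleGraph (Fin 8)} [DecidableRel G.Adj] [DecidableRel H.Adj]
    (φ : G ≃g H) (v : Fin 8) :
    Fintype.card {a : Fin 8 // G.Adj v a} = Fintype.card {a : Fin 8 // H.Adj (φ v) a} :=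
  Fintype.card_congr (φ.toEquiv.subtypeEquiv fun a => (φ.map_adj_iff (v := v) (w := a)).symm)

theorem triangles_iso {G H : SimpleGraph (Fin 8)} [DecidableRel G.Adj] [DecidableRel H.Adj]
    (φ : G ≃g H) (v : Fin 8) :
    Fintype.card {a : Fin 8 × Fin 8 // G.Adj v a.1 ∧ G.Adj v a.2 ∧ G.Adj a.1 a.2}
      = Fintype.card {a : Fin 8 × Fin 8 //
          H.Adj (φ v) a.1 ∧ H.Adj (φ v) a.2 ∧ H.Adj a.1 a.2} :=
  Fintype.card_congr ((Equiv.prodCongr φ.toEquiv φ.toEquiv).subtypeEquiv fun a => by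
    have h1 := φ.map_adj_iff (v := v) (w := a.1)
    have h2 := φ.map_adj_iff (v := v) (w := a.2)
    have h3 := φ.map_adj_iff (v := a.1) (w := a.2)
    exact ⟨fun h => ⟨h1.2 h.1, h2.2 h.2.1, h3.2 h.2.2⟩,
      fun h => ⟨h1.1 h.1, h2.1 h.2.1, h3.1 h.2.2⟩⟩)

theorem not_iso : IsEmpty (graphOf tabG ≃g graphOf tabH) := by
  refine ⟨fun φ => ?_⟩
  obtain ⟨v, hv⟩ : ∃ v : Fin 8, Fintype.card {a : Fin 8 // (graphOf tabG).Adj v a} = 5 ∧
      Fintype.card {a : Fin 8 × Fin 8 // (graphOf tabG).Adj v a.1 ∧ (graphOf tabG).Adj v a.2 ∧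
        (graphOf tabG).Adj a.1 a.2} = 6 := by
    decide +kernel
  have h : ∀ w : Fin 8, Fintype.card {a : Fin 8 // (graphOf tabH).Adj w a} = 5 →
      Fintype.card {a : Fin 8 × Fin 8 // (graphOf tabH).Adj w a.1 ∧ (graphOf tabH).Adj w a.2 ∧
        (graphOf tabH).Adj a.1 a.2} ≠ 6 := by
    decide +kernel
  exact h (φ v) ((degree_iso φ v).symm.trans hv.1) ((triangles_iso φ v).symm.trans hv.2)

/-- **The permanental Q-polynomial is not a complete graph invariant**: there are two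
non-isomorphic graphs on 8 vertices with the same Q-polynomial (and with the same permanental
polynomial `P`). -/
theorem result : ∃ G H : SimpleGraph (Fin 8), IsEmpty (G ≃g H) ∧ Q G = Q H ∧ P G = P H :=
  ⟨graphOf tabG, graphOf tabH, not_iso, by rw [Q_eq_per, Q_eq_per, per_eq],
    by rw [P_eq_per, P_eq_per, per_eq]⟩

end Pool.Agent.Results.MP_5909b9_co.PermanentalQNotComplete
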